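import Pool.Agent.H98.EX.KTargets
import Pool.Agent.H51.CE.SCL

/-!
# Row SCX of exa_modules: all scales
-/

set_option autoImplicit false

open MeasureTheory ProbabilityTheory Filter Topology
open scoped ENNReal

namespace Pool.Agent.H78.EXA

open Pool.Agent.H95 Pool.Agent.H95.Cop Pool.Agent.H96.Cop Pool.Agent.H98.EX
open Pool.Agent.H99.CE (BX w1 cq tb Gf Hf Kd ld mx ab eb TT FL EE lg Reg)
open Pool.Agent.H51.CE (scl_arith scl_re scl_re_le scl_re_of_le scl_re_nonneg)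

theorem scx_QN_le (hHFT : Pool.Agent.H99.CE.T_HFT) (K : PMF ℕ) (ν : Measure ℝ)
    (e α s c δ : ℝ) (k B : ℕ) (hB : 1 ≤ B) (hc : 0 < c) (hδ : 0 < δ) (h0 : 0 < te α s)
    (h1 : te α s < 1) : QNe K ν e α s c δ k B ≤ QTe K ν e α s c δ k B := by
  unfold QNe QTe
  have hcq : 0 < cq c δ := by
    unfold cq
    positivity
  have hBp : (0 : ℝ) < B := by exact_mod_cast hB
  have ht : 0 < tb α c δ B := by
    unfold tb
    positivity
  refine ENNReal.div_le_div_right ?_ _
  refine le_trans (lintegral_mono fun x => (hHFT (tb α c δ B) (te α s)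
    (BX (w1 K B) B 0 x) ht h0 h1).1) ?_
  exact ENNReal.le_tsum (f := fun b => ∫⁻ x, BX (w1 K B) B b x ^ te α s ∂(iid ν)) 0

theorem pf_SCX (_hPFM : Pool.Agent.H99.CE.T_PFM) (hHFT : Pool.Agent.H99.CE.T_HFT)
    (hLYA : Pool.Agent.H99.CE.T_LYA) (hSR1 : T_R1X) (hST1 : T_S1X) (hST2 : T_S2X) : T_SCX := by
  classical
  intro δ0 hδ0 hδ02
  obtain ⟨C, κ', hC, hκ', hL⟩ := hLYA δ0 hδ0 hδ02
  refine ⟨C, κ' / 3, hC, by positivity, ?_⟩
  intro K ν _ α s e c δ h Nb ε X M J n0 k B hPar hNb hhN hJN hc hReg hk hkB hnB hX hQT hQR hQG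
  have hCN0 : 0 ≤ C * Nb := by nlinarith
  have hNC : Nb ≤ C * Nb := by nlinarith
  have hNb0 : 0 ≤ Nb := by linarith
  set b : ℕ → ℕ := fun j => M ^ j * B with hb
  have hb0 : b 0 = B := by rw [hb]; simp
  have hbs : ∀ j, b (j + 1) = M * b j := by
    intro j
    rw [hb]
    simp only
    rw [pow_succ']
    ring
  have hbB : ∀ j, B ≤ b j := fun j => Nat.le_mul_of_pos_left B (pow_pos hPar.M1 j)
  have hb1 : ∀ j, 1 ≤ b j := fun j => le_trans (le_trans hk hkB) (hbB j)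
  have hθ0 : 0 < te α s := lt_of_lt_of_le (by norm_num) hPar.t0
  have hα := hPar.α0
  have hσ := hPar.s0
  have ha1 : 0 < 1 + α := by linarith
  have hθ1 : te α s < 1 := by
    have := hPar.t1
    linarith
  have hkp : (0 : ℝ) < k := by exact_mod_cast hk
  have hsg : 0 ≤ s := hσ.le
  have hbX : ∀ j ≤ J, ((b j : ℝ) / k) ^ s ≤ X := by
    intro j hj
    refine le_trans (Real.rpow_le_rpow (by positivity) ?_ hsg) hX
    have h1 : b j ≤ M ^ J * B := Nat.mul_le_mul_right B (Nat.pow_le_pow_right hPar.M1 hj)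
    have h2 : (b j : ℝ) ≤ ((M ^ J * B : ℕ) : ℝ) := by exact_mod_cast h1
    exact div_le_div_of_nonneg_right h2 hkp.le
  have hNT : ∀ j, QNe K ν e α s c δ k (b j) ≤ QTe K ν e α s c δ k (b j) := fun j =>
    scx_QN_le hHFT K ν e α s c δ k (b j) (hb1 j) hc hPar.δ0 hθ0 hθ1
  -- the real sequences
  set T : ℕ → ℝ := fun j => scl_re (C * Nb) (QTe K ν e α s c δ k (b j)) with hT
  set R : ℕ → ℝ := fun j => scl_re (C * Nb) (QRe K ν e α s c δ k (b j)) with hR
  set N : ℕ → ℝ := fun j => if QTe K ν e α s c δ k (b j) = ∞ then 0 else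
    (QNe K ν e α s c δ k (b j)).toReal with hN
  set G : ℕ → ℝ := fun j => (QGe K ν e α s c δ k (b j)).toReal / (1 + α) with hG
  have hN0 : ∀ j, 0 ≤ N j := by
    intro j
    rw [hN]
    simp only
    split_ifs
    · exact le_rfl
    · exact ENNReal.toReal_nonneg
  have hNTr : ∀ j, N j ≤ T j := by
    intro j
    by_cases hx : QTe K ν e α s c δ k (b j) = ∞
    · have h1 : N j = 0 := if_pos hx
      rw [h1]
      exact scl_re_nonneg hCN0 _
    · have h1 : N j = (QNe K ν e α s c δ k (b j)).toReal := if_neg hx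
      have h2 : T j = (QTe K ν e α s c δ k (b j)).toReal := if_neg hx
      rw [h1, h2]
      exact ENNReal.toReal_mono hx (hNT j)
  have hR0 : ∀ j, 0 ≤ R j := fun j => scl_re_nonneg hCN0 _
  have hG0 : ∀ j, 0 ≤ G j := fun j => div_nonneg ENNReal.toReal_nonneg ha1.le
  -- one step
  have step : ∀ j, j < J → T j ≤ C * Nb → R j ≤ C * Nb → QGe K ν e α s c δ k (b j) ≠ ∞ →
      QGe K ν e α s c δ k (b (j + 1)) ≠ ∞ ∧ R (j + 1) ≤ 3 * ε ∧
      T (j + 1) ≤ (1 + 3 * ε) * (N j + R j) / (1 - (1 + 3 * ε) * h * (N j + R j)) + 3 * ε ∧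
      G (j + 1) + h * N (j + 1) ≤
        (1 + 3 * ε) * G j / (1 - (1 + 3 * ε) * h * (N j + R j)) ^ 2 + 3 * ε := by
    intro j hj hTj hRj hGj
    obtain ⟨t1, t2, t3, t4⟩ := scl_re_le hTj
    obtain ⟨r1, r2, r3, r4⟩ := scl_re_le hRj
    have hNj : N j = (QNe K ν e α s c δ k (b j)).toReal := if_neg t1
    have hQNj : QNe K ν e α s c δ k (b j) ≠ ∞ := ne_top_of_le_ne_top t1 (hNT j)
    have hsum : QNe K ν e α s c δ k (b j) + QRe K ν e α s c δ k (b j) ≤
        ENNReal.ofReal (N j + R j) := by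
      rw [ENNReal.ofReal_add (hN0 j) (hR0 j), hNj, ENNReal.ofReal_toReal hQNj]
      exact add_le_add le_rfl (le_of_eq r3)
    have hp0 : 0 ≤ N j + R j := add_nonneg (hN0 j) (hR0 j)
    have hp1 : N j + R j ≤ 2 * (C * Nb) := by linarith [hNTr j]
    have hh0 := hPar.h0
    have hε0 := hPar.ε0
    have hhp : (1 + ε) * h * (N j + R j) ≤ 1 / 4 := by
      refine le_trans ?_ hPar.c2
      exact mul_le_mul_of_nonneg_left hp1 (by positivity)
    obtain ⟨-, a2, a3, a4⟩ := scl_arith hPar.ε0 hPar.ε1 hPar.h0 hp0 hhp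
    obtain ⟨a5, a6⟩ := a4 (G j) (hG0 j)
    have s1 := hSR1 K ν α s e c δ h (C * Nb) ε X M n0 k (b j) hPar hc hReg hk
      (le_trans hkB (hbB j)) (le_trans hnB (hbB j)) t4 r4
    have s2 := hST1 K ν α s e c δ h (C * Nb) ε X M n0 k (b j) hPar hc hReg hk
      (le_trans hkB (hbB j)) (le_trans hnB (hbB j)) (hbX j hj.le) t4 (N j + R j) hp0 hp1 hsum
    have s3 := hST2 K ν α s e c δ h (C * Nb) ε X M n0 k (b j) hPar hc hReg hk
      (le_trans hkB (hbB j)) (le_trans hnB (hbB j)) (hbX j hj.le) t4 (N j + R j) ((1 + α) * G j)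
      hp0 hp1 (mul_nonneg ha1.le (hG0 j)) hsum (le_of_eq (by
        have e1 : (1 + α) * G j = (QGe K ν e α s c δ k (b j)).toReal := by
          rw [hG]
          field_simp
        rw [e1, ENNReal.ofReal_toReal hGj]))
    rw [← hbs] at s1 s2 s3
    obtain ⟨u1, u2⟩ := scl_re_of_le (A := C * Nb) hPar.ε0.le s1
    obtain ⟨v1, v2⟩ := scl_re_of_le (A := C * Nb) a3 s2
    have hQG1 : QGe K ν e α s c δ k (b (j + 1)) ≠ ∞ :=
      ne_top_of_le_ne_top ENNReal.ofReal_ne_top (le_trans le_self_add s3)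
    refine ⟨hQG1, ?_, le_trans v2 a2, ?_⟩
    · have : R (j + 1) ≤ ε := u2
      linarith
    · have hQN1 : QNe K ν e α s c δ k (b (j + 1)) ≠ ∞ := ne_top_of_le_ne_top v1 (hNT (j + 1))
      have hN1 : N (j + 1) = (QNe K ν e α s c δ k (b (j + 1))).toReal := if_neg v1
      have hh1 : 0 ≤ (1 + α) * h := mul_nonneg ha1.le hPar.h0.le
      have h5 : (1 + α) * (G (j + 1) + h * N (j + 1)) = (QGe K ν e α s c δ k (b (j + 1)) +
          ENNReal.ofReal ((1 + α) * h) * QNe K ν e α s c δ k (b (j + 1))).toReal := by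
        rw [ENNReal.toReal_add hQG1 (ENNReal.mul_ne_top ENNReal.ofReal_ne_top hQN1),
          ENNReal.toReal_mul, ENNReal.toReal_ofReal hh1, hN1]
        rw [hG]
        field_simp
      set D : ℝ := (1 - (1 + ε) * h * (N j + R j)) ^ 2 with hD
      have hD0 : 0 ≤ D := sq_nonneg _
      have h6 : (1 + ε) ^ 2 * ((1 + α) * G j) / D + 2 * ε ≤
          (1 + α) * ((1 + ε) ^ 2 * G j / D + 2 * ε) := by
        have e3 : (1 + ε) ^ 2 * ((1 + α) * G j) / D = (1 + α) * ((1 + ε) ^ 2 * G j / D) := by ring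
        rw [e3, mul_add]
        nlinarith [hPar.ε0, hPar.α0]
      have h7 : 0 ≤ (1 + ε) ^ 2 * ((1 + α) * G j) / D + 2 * ε := by
        have := hG0 j
        positivity
      have h8 : (1 + α) * (G (j + 1) + h * N (j + 1)) ≤
          (1 + α) * ((1 + ε) ^ 2 * G j / D + 2 * ε) := by
        rw [h5]
        exact le_trans (ENNReal.toReal_le_of_le_ofReal h7 s3) h6
      exact le_trans (le_of_mul_le_mul_left h8 ha1) a5
  -- the start
  have hT0 : T 0 ≤ Nb := by
    have := (scl_re_of_le (A := C * Nb) hNb0 hQT).2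
    rw [← hb0] at this
    exact this
  have hRz : R 0 ≤ Nb := by
    have := (scl_re_of_le (A := C * Nb) hNb0 hQR).2
    rw [← hb0] at this
    exact this
  have hGz : G 0 ≤ 1 / 2 - δ0 := by
    have := ENNReal.toReal_le_of_le_ofReal (mul_nonneg ha1.le (by linarith)) hQG
    rw [← hb0] at this
    rw [hG]
    simp only
    rw [div_le_iff₀ ha1]
    linarith
  have hGf : QGe K ν e α s c δ k (b 0) ≠ ∞ := by
    rw [hb0]
    exact ne_top_of_le_ne_top ENNReal.ofReal_ne_top hQG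
  have hJN' : (J : ℝ) * (3 * ε) * Nb ≤ κ' := by
    have h1 : (J : ℝ) * (3 * ε) * Nb = 3 * (J * ε * Nb) := by ring
    rw [h1]
    linarith
  have main : ∀ n, n ≤ J → ∀ j ≤ n, QGe K ν e α s c δ k (b j) ≠ ∞ ∧ T j ≤ C * Nb ∧
      R j ≤ C * Nb := by
    intro n
    induction n with
    | zero =>
      intro _ j hj
      obtain rfl : j = 0 := Nat.le_zero.1 hj
      exact ⟨hGf, le_trans hT0 hNC, le_trans hRz hNC⟩
    | succ n ih =>
      intro hn
      have ih' := ih (by omega)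
      have h1 : ∀ j ≤ n + 1, T j ≤ C * Nb ∧ R j ≤ C * Nb := by
        refine hL (3 * ε) h Nb (n + 1) (by linarith [hPar.ε0]) (by linarith [hPar.ε1])
          hPar.h0 hNb (by linarith) ?_ N T R G
          (fun j => ⟨hN0 j, hNTr j, hR0 j, hG0 j⟩) hT0 hRz hGz ?_
        · refine le_trans ?_ hJN'
          have h2 : ((n + 1 : ℕ) : ℝ) ≤ J := by exact_mod_cast hn
          have h3 := hPar.ε0
          gcongr
        · intro j hj hTj hRj
          exact (step j (by omega) hTj hRj (ih' j (by omega)).1).2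
      intro j hj
      rcases Nat.lt_or_ge j (n + 1) with hlt | hge
      · exact ih' j (by omega)
      · obtain rfl : j = n + 1 := le_antisymm hj hge
        obtain ⟨i1, i2, i3⟩ := ih' n le_rfl
        exact ⟨(step n (by omega) i2 i3 i1).1, h1 _ le_rfl⟩
  exact (scl_re_le (main J le_rfl J le_rfl).2.1).2.2.2

end Pool.Agent.H78.EXA
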